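import Mathlib
import Pool.Agent.H922R2.OPC.Stubs

set_option autoImplicit false

open MvPolynomial

namespace Pool.Agent.H881O.OPC_RUN

open Pool.Agent.H922R2.OPC

variable {k : Type} [Field k]

lemma f1_ne (D : TC k) : D.f₁ ≠ 0 := by
  intro h0
  have h := D.h₁
  obtain ⟨hn, -, he⟩ := h
  rw [h0, map_zero] at he
  have hd : (0 - Polynomial.C lam : Polynomial (L k)).natDegree = 0 := by
    have h2 : (0 - Polynomial.C (lam : L k) : Polynomial (L k)) =
        Polynomial.C (-(lam : L k)) := by
      have h3 : Polynomial.C (-(lam : L k)) = -Polynomial.C (lam : L k) := Polynomial.C_neg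
      rw [h3]
      exact zero_sub (Polynomial.C (lam : L k))
    rw [h2]
    exact Polynomial.natDegree_C _
  have hm : (∏ i ∈ Finset.range D.n₁,
      (Polynomial.X - Polynomial.C (rot (D.ζ₁ ^ i) D.φ₁))).natDegree = D.n₁ := by
    rw [Polynomial.natDegree_prod_of_monic _ _ (fun i _ => Polynomial.monic_X_sub_C _)]
    simp
  rw [← he] at hm
  have hz : D.n₁ = 0 := hm.symm.trans hd
  omega

theorem run (k : Type) [Field k] : Pool.Agent.H922R2.OPC.S_RUN k := by
  intro D hD
  have hf := f1_ne D
  have hFf : D.F D.f₂ = D.f₁ * D.r := D.hr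
  have hex : ∀ h : B k, ∃ g q : B k, h = D.F g + D.f₁ * q := by
    intro h
    obtain ⟨g, q, hq⟩ := D.hs h
    exact ⟨g, q, by rw [← hq]; unfold TC.F; ring⟩
  choose g q hgq using hex
  set I : Ideal (B k) := Ideal.span {D.f₁, D.r} with hI
  have hf1 : (Ideal.Quotient.mk I D.f₁) = 0 :=
    Ideal.Quotient.eq_zero_iff_mem.mpr (Ideal.subset_span (by simp))
  have hr1 : (Ideal.Quotient.mk I D.r) = 0 :=
    Ideal.Quotient.eq_zero_iff_mem.mpr (Ideal.subset_span (by simp))
  have uniq : ∀ h a b : B k, h = D.F a + D.f₁ * b →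
      Ideal.Quotient.mk I (q h) = Ideal.Quotient.mk I b := by
    intro h a b hab
    have h1 : D.F (g h - a) = D.f₁ * (b - q h) := by
      rw [map_sub]
      have := hgq h
      linear_combination hab - this
    obtain ⟨c, hc⟩ := hD (g h - a) ⟨_, h1⟩
    rw [hc, map_mul, hFf] at h1
    have h2 : D.f₁ * (D.r * D.F c) = D.f₁ * (b - q h) := by
      rw [← h1]; ring
    have h3 := mul_left_cancel₀ hf h2
    have h4 : b = q h + D.r * D.F c := by rw [h3]; ring
    rw [h4, map_add, map_mul, hr1, zero_mul, add_zero]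
  let δ : B k → B k ⧸ I := fun h => Ideal.Quotient.mk I (q h)
  have hδ : ∀ h a b : B k, h = D.F a + D.f₁ * b → δ h = Ideal.Quotient.mk I b := uniq
  have dF : ∀ a, δ (D.F a) = 0 := by
    intro a
    rw [hδ _ a 0 (by ring), map_zero]
  have dadd : ∀ a b, δ (a + b) = δ a + δ b := by
    intro a b
    rw [hδ (a + b) (g a + g b) (q a + q b) (by
      rw [map_add]
      linear_combination hgq a + hgq b), map_add]
  have dmul : ∀ a b, δ (a * b) = Ideal.Quotient.mk I a * δ b + Ideal.Quotient.mk I b * δ a := by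
    intro a b
    have e1 : a * b = D.F (g a * g b) + D.f₁ * (q b * D.F (g a) + q a * D.F (g b) +
        D.f₁ * (q a * q b)) := by
      rw [map_mul]
      have ha := hgq a
      have hb := hgq b
      calc a * b = (D.F (g a) + D.f₁ * q a) * (D.F (g b) + D.f₁ * q b) := by rw [← ha, ← hb]
        _ = _ := by ring
    have ea : Ideal.Quotient.mk I a = Ideal.Quotient.mk I (D.F (g a)) := by
      conv_lhs => rw [hgq a]
      rw [map_add, map_mul, hf1, zero_mul, add_zero]
    have eb : Ideal.Quotient.mk I b = Ideal.Quotient.mk I (D.F (g b)) := by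
      conv_lhs => rw [hgq b]
      rw [map_add, map_mul, hf1, zero_mul, add_zero]
    rw [hδ _ _ _ e1, ea, eb]
    simp only [map_add, map_mul, hf1, δ]
    ring
  have chain : ∀ h : B k, δ h = Ideal.Quotient.mk I (pderiv 0 h) * δ (X 0) +
      Ideal.Quotient.mk I (pderiv 1 h) * δ (X 1) := by
    intro h
    induction h using MvPolynomial.induction_on with
    | C c =>
      have : δ (C c) = 0 := by
        have h1 : D.F (C c) = C c := by
          have := D.F.commutes c
          exact this
        rw [← h1]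
        exact dF _
      rw [this]
      simp
    | add a b ha hb =>
      rw [dadd, ha, hb]
      simp only [map_add]
      ring
    | mul_X a i ha =>
      rw [dmul, ha]
      fin_cases i
      · simp only [Fin.zero_eta, pderiv_mul, pderiv_X_self, map_add, map_mul,
          pderiv_X_of_ne (show (0 : Fin 2) ≠ 1 by decide), map_zero, mul_one, mul_zero]
        ring
      · simp only [Fin.mk_one, pderiv_mul, pderiv_X_self, map_add, map_mul,
          pderiv_X_of_ne (show (1 : Fin 2) ≠ 0 by decide), map_zero, mul_one, mul_zero]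
        ring
  have hP : D.F (X 0) = D.P := by simp [TC.F, sb]
  have hQ : D.F (X 1) = D.Q := by simp [TC.F, sb]
  have eP := chain D.P
  have eQ := chain D.Q
  rw [← hP, dF, hP] at eP
  rw [← hQ, dF, hQ] at eQ
  have hu : IsUnit (Ideal.Quotient.mk I (jac D.P D.Q)) := D.hJ.map _
  have x0 : δ (X 0) = 0 := by
    rw [← hu.mul_right_eq_zero]
    simp only [jac, map_sub, map_mul]
    linear_combination (Ideal.Quotient.mk I (pderiv 1 D.P)) * eQ -
      (Ideal.Quotient.mk I (pderiv 1 D.Q)) * eP
  have x1 : δ (X 1) = 0 := by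
    rw [← hu.mul_right_eq_zero]
    simp only [jac, map_sub, map_mul]
    linear_combination (Ideal.Quotient.mk I (pderiv 0 D.Q)) * eP -
      (Ideal.Quotient.mk I (pderiv 0 D.P)) * eQ
  have e1 : δ D.f₁ = 1 := by
    rw [hδ D.f₁ 0 1 (by rw [map_zero]; ring), map_one]
  have e2 := chain D.f₁
  rw [e1, x0, x1, mul_zero, mul_zero, add_zero] at e2
  have h1 : (1 : B k) ∈ I := by
    rw [← Ideal.Quotient.eq_zero_iff_mem, map_one]
    exact e2
  rw [hI, Ideal.mem_span_pair] at h1
  exact h1

end Pool.Agent.H881O.OPC_RUN
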